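import Pool.Agent.AH.Main
import Pool.Agent.AH.Stmt

/-!
# An almost homogeneous complex manifold with totally disconnected automorphism group

For every `d ≥ 1` there is a connected complex manifold `X` of dimension `d + 1` and an open set `Ω` of
`X`, biholomorphic to `ℂ^(d+1)` minus a point, whose complement is a nonempty closed smooth complex
hypersurface, such that all automorphisms preserve `Ω`, the automorphism group is `k`-transitive on `Ω`
for every `k`, and the automorphism group (compact-open topology) is totally disconnected; in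
particular its identity component is trivial.
-/

set_option autoImplicit false

open Set Topology
open scoped Manifold

namespace Pool.Agent.Results.MP_640539_an.AlmostHomogeneous

open Pool.Agent.AH

/-- there is a countable dense subfield of `ℂ`: the algebraic numbers -/
theorem exists_field : ∃ K : Subfield ℂ, Countable K ∧ Dense (K : Set ℂ) ∧ ∃ τ : ℂ, τ ∉ K := by
  have hmem : ∀ x : ℂ, x ∈ (algebraicClosure ℚ ℂ).toSubfield ↔ IsAlgebraic ℚ x := fun x =>
    mem_algebraicClosure_iff
  have hcount : ((algebraicClosure ℚ ℂ).toSubfield : Set ℂ).Countable := by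
    refine (Algebraic.countable ℚ ℂ).mono fun x hx => ?_
    exact (hmem x).1 hx
  refine ⟨(algebraicClosure ℚ ℂ).toSubfield, hcount.to_subtype, ?_, ?_⟩
  · have hI : IsAlgebraic ℚ Complex.I := by
      refine ⟨Polynomial.X ^ 2 + 1, ?_, by simp⟩
      intro h
      have := congrArg (Polynomial.eval 0) h
      simp at this
    have hd : DenseRange (fun q : ℚ × ℚ => ((q.1 : ℝ) : ℂ) + ((q.2 : ℝ) : ℂ) * Complex.I) := by
      have h1 : DenseRange (Prod.map (fun q : ℚ => (q : ℝ)) (fun q : ℚ => (q : ℝ))) :=
        DenseRange.prodMap Rat.denseRange_cast Rat.denseRange_cast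
      have h2 : DenseRange (fun p : ℝ × ℝ => ((p.1 : ℝ) : ℂ) + ((p.2 : ℝ) : ℂ) * Complex.I) :=
        Function.Surjective.denseRange fun z => ⟨(z.re, z.im), Complex.re_add_im z⟩
      exact h2.comp h1 (by fun_prop)
    refine hd.mono ?_
    rintro _ ⟨q, rfl⟩
    refine (hmem _).2 (IsAlgebraic.add ?_ (IsAlgebraic.mul ?_ hI))
    · have := isAlgebraic_algebraMap (R := ℚ) (A := ℂ) q.1
      simpa using this
    · have := isAlgebraic_algebraMap (R := ℚ) (A := ℂ) q.2
      simpa using this
  · by_contra hcon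
    push Not at hcon
    have h1 : (univ : Set ℂ).Countable := hcount.mono fun x _ => hcon x
    exact not_countable_complex h1

theorem result (d : ℕ) (hd : 0 < d) :
    ∃ (X : Type) (_ : TopologicalSpace X) (_ : T2Space X) (_ : SecondCountableTopology X)
      (_ : ConnectedSpace X) (_ : ChartedSpace (E d) X)
      (_ : IsManifold 𝓘(ℂ, E d) (⊤ : WithTop ℕ∞) X) (Ω : Set X),
      IsOpen Ω ∧ Dense Ω ∧ Ω ≠ univ ∧ HypersurfaceCompl d X Ω ∧ IsPuncturedSpace d X Ω ∧
      AutInvariant d X Ω ∧ AutInfTransitive d X Ω ∧ IsTotallyDisconnected (autSet d X) := by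
  obtain ⟨K, hc, hK, τ, hτ⟩ := exists_field
  refine ⟨Pt K τ d, inferInstance, t2Space hd hτ, secondCountableTopology, connectedSpace hd,
    inferInstance, inferInstance, Om K τ d, isOpen_Om, dense_Om, ?_, ?_, ?_, image_Om hd, ?_, ?_⟩
  · intro h
    have : (Pt.new (Idx.base K d) 0 : Pt K τ d) ∈ Om K τ d := by
      rw [h]
      exact mem_univ _
    exact notMem_Om_new _ _ this
  · intro p hp
    cases p with
    | reg x h => exact absurd (mem_Om_reg x h) hp
    | new i v =>
      refine ⟨eh τ i, eh_mem i, (mem_range_J_new τ i i v).2 rfl, rfl, ?_⟩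
      rintro _ ⟨x, rfl⟩
      change J τ i x ∈ Om K τ d ↔ (Cf τ i (J τ i x)).1 ≠ 0
      rw [Cf_J]
      rcases eq_or_ne x.1 0 with h | h
      · obtain ⟨z, w⟩ := x
        obtain rfl : z = 0 := h
        rw [J_zero]
        simp [notMem_Om_new]
      · rw [J_ne τ i h]
        exact ⟨fun _ => h, fun _ => mem_Om_reg _ _⟩
  · exact ⟨eh0 K τ d, eh0_mem, rfl, rfl⟩
  · intro k x y hx hy hx0 hy0
    exact k_trans_Om hd hK hτ x y hx hy hx0 hy0
  · have h := totDisc (d := d) hd hK hτ
    have e : autSet d (Pt K τ d) = range (fun ψ : AutM d (Pt K τ d) =>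
        (ContinuousMap.mk ψ ψ.continuous : C(Pt K τ d, Pt K τ d))) := by
      ext f
      exact ⟨fun ⟨ψ, h⟩ => ⟨ψ, h.symm⟩, fun ⟨ψ, h⟩ => ⟨ψ, h.symm⟩⟩
    rw [e]
    exact h

end Pool.Agent.Results.MP_640539_an.AlmostHomogeneous
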