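import Pool.Agent.ISY.FinB

/-!
# Homogeneous complex surfaces with an invariant fibration

Let `X` be a connected complex surface with a holomorphic submersion `π` onto `ℂ`, `ℂ*` or the disc, all of
whose fibres are biholomorphic to one of `ℂ`, `ℂ*`, the disc. If a group `G` of automorphisms of `X` is
transitive and maps fibres of `π` into fibres, then the identity component of `Aut X` is not trivial; if `G`
is closed, `G` itself is not totally disconnected.
-/

set_option autoImplicit false

open Set Topology
open scoped Manifold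

namespace Pool.Agent.Results.MP_640539_an.FibredSurfaces

open Pool.Agent.ISY

theorem result (X : Type) [TopologicalSpace X] [T2Space X] [SecondCountableTopology X]
    [ConnectedSpace X] [ChartedSpace (ℂ × ℂ) X] [IsManifold 𝓘(ℂ, ℂ × ℂ) (⊤ : WithTop ℕ∞) X]
    (π : X → ℂ) (F : Set ℂ) (hS : FibredSurface π F) (G : Subgroup (AutM (ℂ × ℂ) X))
    (htr : Transitive G) (hG : ∀ g ∈ G, Pres π g) :
    HasFlow (ℂ × ℂ) X ∧ (IsClosed (G : Set (AutM (ℂ × ℂ) X)) →
      ¬ IsTotallyDisconnected (G : Set (AutM (ℂ × ℂ) X))) :=
  ⟨hasFlow_of_fibred hS htr hG, fun hcl => not_isTotallyDisconnected_of_closed hS hcl htr hG⟩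

end Pool.Agent.Results.MP_640539_an.FibredSurfaces
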