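import Pool.Agent.ISY.FinA

/-!
# The isotropy groups of a homogeneous complex manifold with trivial identity component

Let `X` be a connected complex manifold of positive dimension and `G` a closed subgroup of `Aut X`
(compact-open topology) which is transitive on `X` and totally disconnected. Then the isotropy group `G_p`
of every point satisfies the criterion below (all its nontrivial conjugacy classes are uncountable, all
its locally compact normal subgroups are trivial, it is not virtually nilpotent, ...), the locally compact
normal subgroups of `G` act freely, and no virtually nilpotent subgroup of `G` is transitive. In particular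
this holds for `G = Aut X` if `X` is homogeneous and the identity component of `Aut X` is trivial.
-/

set_option autoImplicit false

open Set Topology
open scoped Manifold

namespace Pool.Agent.Results.MP_640539_an.IsotropyCriterion

open Pool.Agent.ISY

theorem result (E : Type) [NormedAddCommGroup E] [NormedSpace ℂ E] [FiniteDimensional ℂ E]
    [Nontrivial E] (X : Type) [TopologicalSpace X] [T2Space X] [SecondCountableTopology X]
    [ConnectedSpace X] [ChartedSpace E X] [IsManifold 𝓘(ℂ, E) (⊤ : WithTop ℕ∞) X] :
    (∀ G : Subgroup (AutM E X), IsClosed (G : Set (AutM E X)) → Transitive G →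
      IsTotallyDisconnected (G : Set (AutM E X)) →
        (∀ p : X, Criterion G p) ∧ NoNilpotentTransitive G) ∧
    (Transitive (⊤ : Subgroup (AutM E X)) → ¬ HasFlow E X →
        (∀ p : X, Criterion (⊤ : Subgroup (AutM E X)) p) ∧
          NoNilpotentTransitive (⊤ : Subgroup (AutM E X))) := by
  have h : ∀ G : Subgroup (AutM E X), IsClosed (G : Set (AutM E X)) → Transitive G →
      IsTotallyDisconnected (G : Set (AutM E X)) →
        (∀ p : X, Criterion G p) ∧ NoNilpotentTransitive G := fun G h1 h2 h3 =>
    ⟨fun p => criterion h1 h2 h3 p, noNilpotentTransitive h1 h3⟩
  refine ⟨h, fun htr hf => ?_⟩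
  have i1 := totallyDisconnectedSpace_of_not_hasFlow hf
  exact h ⊤ (by simp) htr (isTotallyDisconnected_of_totallyDisconnectedSpace _)

end Pool.Agent.Results.MP_640539_an.IsotropyCriterion
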