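import Pool.Agent.PSC.Fin

/-!
# Homogeneous pseudoconcave manifolds

Let `X` be a connected complex manifold of positive dimension and `G` a closed subgroup of `Aut X`
(compact-open topology) which is transitive on `X`. If `X` is pseudoconcave or, more generally, if there are
a nonempty compact set `K` and an open set `W` containing `K` such that, for sequences in `G`, convergence to
the identity on `K` implies convergence to the identity on `W`, then `G` is locally compact and not totally
disconnected. For `G = Aut X` it follows that the identity component of `Aut X` is not trivial.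
-/

set_option autoImplicit false

open Set Topology
open scoped Manifold

namespace Pool.Agent.Results.MP_640539_an.PseudoconcaveManifolds

open Pool.Agent.ISY Pool.Agent.PSC

theorem result (E : Type) [NormedAddCommGroup E] [NormedSpace ℂ E] [FiniteDimensional ℂ E]
    [Nontrivial E] (X : Type) [TopologicalSpace X] [T2Space X] [SecondCountableTopology X]
    [ConnectedSpace X] [ChartedSpace E X] [IsManifold 𝓘(ℂ, E) (⊤ : WithTop ℕ∞) X] :
    (∀ G : Subgroup (AutM E X), IsClosed (G : Set (AutM E X)) → Transitive G →
      (Pseudoconcave E X ∨
        ∃ K W : Set X, IsCompact K ∧ K.Nonempty ∧ IsOpen W ∧ K ⊆ W ∧ Propagates G K W) →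
      LocallyCompactSpace G ∧ ¬ IsTotallyDisconnected (G : Set (AutM E X))) ∧
    (Transitive (⊤ : Subgroup (AutM E X)) →
      (Pseudoconcave E X ∨ ∃ K W : Set X, IsCompact K ∧ K.Nonempty ∧ IsOpen W ∧ K ⊆ W ∧
        Propagates (⊤ : Subgroup (AutM E X)) K W) → HasFlow E X) := by
  have key : ∀ G : Subgroup (AutM E X), IsClosed (G : Set (AutM E X)) → Transitive G →
      (Pseudoconcave E X ∨
        ∃ K W : Set X, IsCompact K ∧ K.Nonempty ∧ IsOpen W ∧ K ⊆ W ∧ Propagates G K W) →
      LocallyCompactSpace G := by
    rintro G hcl htr (hX | ⟨K, W, hK, hne, hW, hKW, hP⟩)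
    · exact locallyCompact_of_pseudoconcave hX hcl htr
    · exact locallyCompact_of_propagates hcl htr hK hne hW hKW hP
  exact ⟨fun G hcl htr h => ⟨key G hcl htr h, not_totallyDisconnected hcl htr (key G hcl htr h)⟩,
    fun htr h => hasFlow_of_locallyCompact htr (key ⊤ (by simp) htr h)⟩

end Pool.Agent.Results.MP_640539_an.PseudoconcaveManifolds
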